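import Pool.Agent.Lib.MP_4fbe7c_an.ND.Iface
import Pool.Agent.Lib.MP_4fbe7c_an.ND.Base

/-! Project ND, row BDX: the difference `f - Psi (·, y)` has no maximum on the boundary
(helper91). -/

set_option autoImplicit false

open Set MeasureTheory Filter Topology

namespace Pool.Agent.Lib.MP_4fbe7c_an.ND.H91

open Pool.Agent.Lib.MP_4fbe7c_an.ND

variable {p : ℕ} {Ω : Set (Eu p)} {q : Eu p → ℝ}

/-- A positive lower bound of `‖∇ q‖ ^ 2` on the frontier. -/
theorem exists_grad_bound (h : Dom Ω q) :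
    ∃ k : ℝ, 0 < k ∧ ∀ x ∈ frontier Ω, k ≤ ‖gradient q x‖ ^ 2 := by
  have hK : IsCompact (frontier Ω) := h.isCompact.of_isClosed_subset isClosed_frontier
    h.frontier_subset
  have hc : Continuous (fun x => ‖gradient q x‖ ^ 2) := h.continuous_gradient.norm.pow 2
  rcases (frontier Ω).eq_empty_or_nonempty with h0 | h0
  · refine ⟨1, one_pos, fun x hx => ?_⟩
    rw [h0] at hx
    exact absurd hx (notMem_empty x)
  · obtain ⟨x, hx, hm⟩ := hK.exists_isMinOn h0 hc.continuousOn
    refine ⟨‖gradient q x‖ ^ 2, ?_, fun y hy => hm hy⟩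
    have h1 : 0 < ‖gradient q x‖ := norm_pos_iff.mpr (h.grad x (h.mem_frontier_iff.mp hx))
    positivity

/-- The derivative of the norm along a line. -/
theorem hasDerivAt_norm_line {x y e : Eu p} (hxy : 0 < ‖x - y‖) :
    HasDerivAt (fun s : ℝ => ‖x + s • e - y‖) (inner ℝ (x - y) e / ‖x - y‖) 0 := by
  have h2 : HasDerivAt (fun s : ℝ => x + s • e - y) e 0 := by
    have := (((hasDerivAt_id (0 : ℝ)).smul_const e).const_add x).sub_const y
    simpa using this
  have h3 := h2.norm_sq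
  simp only [zero_smul, add_zero] at h3
  have h4 : ‖x + (0 : ℝ) • e - y‖ ^ 2 ≠ 0 := by
    simp only [zero_smul, add_zero]
    positivity
  have h5 := h3.sqrt h4
  simp only [zero_smul, add_zero] at h5
  have h6 : (fun s : ℝ => Real.sqrt (‖x + s • e - y‖ ^ 2)) = fun s : ℝ => ‖x + s • e - y‖ := by
    funext s
    exact Real.sqrt_sq (norm_nonneg _)
  rw [Real.sqrt_sq (norm_nonneg _)] at h5
  have h7 : HasDerivAt (fun s : ℝ => ‖x + s • e - y‖) (2 * inner ℝ (x - y) e / (2 * ‖x - y‖)) 0 := by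
    rw [← h6]
    exact h5
  have h8 : 2 * inner ℝ (x - y) e / (2 * ‖x - y‖) = inner ℝ (x - y) e / ‖x - y‖ := by
    rw [mul_div_mul_left _ _ (two_ne_zero)]
  rw [h8] at h7
  exact h7

/-- The derivative of the barrier along a line. -/
theorem hasDerivAt_Psi (h : Dom Ω q) {x y e : Eu p} {A B σ : ℝ} (hxy : 0 < ‖x - y‖) :
    HasDerivAt (fun s : ℝ => Psi q B σ A (x + s • e) y)
      (B * (2 * (inner ℝ (x - y) e / ‖x - y‖ / σ)
          - 2 * (‖x - y‖ / σ) * (inner ℝ (x - y) e / ‖x - y‖ / σ)) * Real.exp (A * (q x + q y))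
        + B * (2 * (‖x - y‖ / σ) - (‖x - y‖ / σ) ^ 2) *
          (Real.exp (A * (q x + q y)) * (A * inner ℝ (gradient q x) e))) 0 := by
  have h1 := (hasDerivAt_norm_line (e := e) hxy).div_const σ
  have h2 := h.hasDerivAt_line x e 0
  simp only [zero_smul, add_zero] at h2
  have h3 := ((h2.add_const (q y)).const_mul A).exp
  have h4 := ((h1.const_mul 2).sub (h1.pow 2)).const_mul B
  have h5 := h4.mul h3
  simp only [zero_smul, add_zero] at h5
  refine h5.congr_deriv ?_
  norm_num

theorem bdx (hN : NrmStatement) : BdxStatement := by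
  intro p Ω q hΩ
  obtain ⟨L, hL0, hLc, hL⟩ := hN p Ω q hΩ
  obtain ⟨k, hk0, hk⟩ := exists_grad_bound hΩ
  refine ⟨L / k, div_nonneg hL0 hk0.le, fun hc => by rw [hLc hc, zero_div], ?_⟩
  intro A B σ f f' x y hA hB hσ hf hneu hx hy hr hrs
  apply Eventually.frequently
  have hAk : L < A * k := (div_lt_iff₀ hk0).mp hA
  have hA0 : 0 < A := lt_of_le_of_lt (div_nonneg hL0 hk0.le) hA
  have hqx : q x = 0 := hΩ.mem_frontier_iff.mp hx
  have hkx := hk x hx
  have hin : inner ℝ (gradient q x) (-gradient q x) = -‖gradient q x‖ ^ 2 := by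
    rw [inner_neg_right, real_inner_self_eq_norm_sq]
  have he : ∀ᶠ s in 𝓝[>] (0 : ℝ), x + s • (-gradient q x) ∈ Ω := by
    apply hΩ.eventually_mem hqx
    rw [hin]
    linarith
  have h1 := hf.hasDerivWithinAt_inward hΩ (hΩ.frontier_subset hx) he
  have h0 : inner ℝ (f' x) (-gradient q x) = 0 := by
    rw [inner_neg_right, hneu x hx, neg_zero]
  rw [h0] at h1
  have h2 := (hasDerivAt_Psi hΩ (e := -gradient q x) (A := A) (B := B) (σ := σ) hr).hasDerivWithinAt
    (s := Ici 0)
  have h3 := (h1.sub h2).mono (Ioi_subset_Ici_self (a := (0 : ℝ)))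
  rw [hasDerivWithinAt_iff_tendsto_slope' (by simp)] at h3
  -- the derivative is positive
  have hpos : 0 < 0 - (B * (2 * (inner ℝ (x - y) (-gradient q x) / ‖x - y‖ / σ)
          - 2 * (‖x - y‖ / σ) * (inner ℝ (x - y) (-gradient q x) / ‖x - y‖ / σ)) *
            Real.exp (A * (q x + q y))
        + B * (2 * (‖x - y‖ / σ) - (‖x - y‖ / σ) ^ 2) *
          (Real.exp (A * (q x + q y)) * (A * inner ℝ (gradient q x) (-gradient q x)))) := by
    rw [hin, inner_neg_right]
    have hLx := hL x hx y hy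
    set r := ‖x - y‖ with hrdef
    set I := inner ℝ (x - y) (gradient q x) with hI
    set G := ‖gradient q x‖ ^ 2 with hG
    set E := Real.exp (A * (q x + q y)) with hE
    have hE0 : 0 < E := Real.exp_pos _
    have ht0 : 0 < r / σ := div_pos hr hσ
    have ht1 : r / σ < 1 := (div_lt_one hσ).mpr hrs
    set t := r / σ with ht
    have hIr : -I / r / σ ≤ L * t := by
      have e1 : -I ≤ L * r ^ 2 := by linarith
      have e2 : -I / r ≤ L * r := by
        rw [div_le_iff₀ hr]
        nlinarith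
      have e3 : -I / r / σ ≤ L * r / σ := by gcongr
      rw [ht, ← mul_div_assoc]
      exact e3
    have key : B * E * ((2 - 2 * t) * (-I / r / σ) - A * G * (t * (2 - t))) < 0 := by
      have e1 : (2 - 2 * t) * (-I / r / σ) ≤ (2 - 2 * t) * (L * t) :=
        mul_le_mul_of_nonneg_left hIr (by linarith)
      have e2 : (2 - 2 * t) * (L * t) ≤ (2 - t) * (L * t) :=
        mul_le_mul_of_nonneg_right (by linarith) (mul_nonneg hL0 ht0.le)
      have e3 : L < A * G := lt_of_lt_of_le hAk (mul_le_mul_of_nonneg_left hkx hA0.le)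
      have e4 : 0 < t * (2 - t) := mul_pos ht0 (by linarith)
      have e5 : L * (t * (2 - t)) < A * G * (t * (2 - t)) := mul_lt_mul_of_pos_right e3 e4
      have e6 : (2 - 2 * t) * (-I / r / σ) - A * G * (t * (2 - t)) < 0 := by nlinarith
      exact mul_neg_of_pos_of_neg (mul_pos hB hE0) e6
    have e : 0 - (B * (2 * (-I / r / σ) - 2 * t * (-I / r / σ)) * E
        + B * (2 * t - t ^ 2) * (E * (A * -G)))
        = -(B * E * ((2 - 2 * t) * (-I / r / σ) - A * G * (t * (2 - t)))) := by ring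
    rw [e]
    linarith
  have h4 := h3.eventually_const_lt hpos
  filter_upwards [h4, he, self_mem_nhdsWithin] with s hs hsΩ hs0
  refine ⟨hsΩ, ?_⟩
  have hs0' : 0 < s := hs0
  rw [slope_def_field] at hs
  simp only [Pi.sub_apply, zero_smul, add_zero, sub_zero] at hs
  have h5 := (lt_div_iff₀ hs0').mp hs
  rw [zero_mul] at h5
  linarith

end Pool.Agent.Lib.MP_4fbe7c_an.ND.H91
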